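import Pool.Agent.H84.S2.TgD

/-!
# Row D_NGN of the board `s2l_modules`: numerics
-/

set_option autoImplicit false

namespace Pool.Agent.H21.S2

open Pool.Agent.H84.S2

theorem pf_NGN : T_NGN := by
  intro δ j0 c0 q
  obtain ⟨h, hh⟩ : ∃ h : ℕ, h = 3 * q * δ + 1 := ⟨_, rfl⟩
  obtain ⟨a, ha⟩ : ∃ a : ℕ, a = 2 * j0 + 1 + c0 := ⟨_, rfl⟩
  obtain ⟨b, hb⟩ : ∃ b : ℕ, b = j0 + c0 := ⟨_, rfl⟩
  refine ⟨4 * (h + 1) * (a + b) + a + b + 10, fun m hm => ?_⟩
  obtain ⟨M, rfl⟩ : ∃ M : ℕ, m = M + 2 := ⟨m - 2, by omega⟩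
  have hM1 : 4 * (h + 1) * (a + b) + a + b + 8 ≤ M := by omega
  have hh1 : 1 ≤ h := by omega
  have hnM : 2 * M ≤ 2 * h * M := by nlinarith
  obtain ⟨P, hP⟩ : ∃ P : ℕ, P + a = 2 * h * M := ⟨2 * h * M - a, by omega⟩
  obtain ⟨e, he⟩ : ∃ e : ℕ, e = P + j0 + c0 := ⟨_, rfl⟩
  have he' : e + (j0 + 1) = 2 * h * M := by omega
  refine ⟨2 * h, h, (2 * (2 * h) + 1) * j0 + 1, e, e + (M + 2 + 2 * j0 - 1), by omega, ?_, by omega,
    rfl, by omega, ?_, ?_⟩
  · have h1 : ((e : ℤ)) + (j0 + 1) = 2 * h * M := by exact_mod_cast he'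
    push_cast
    linarith
  · intro r hr
    have h1 : r + 1 ≤ M := by omega
    have h2 : (r + 1) * (h + 1) ≤ M * (h + 1) := Nat.mul_le_mul_right _ h1
    have h3 : M * (h + 1) ≤ 2 * h * M + M := by nlinarith
    omega
  · intro τ D1 D2 W1 W2 h1 h2 h3 h4 h5
    have e1 : e - j0 - c0 = P := by omega
    have e2 : e + (M + 2 + 2 * j0 - 1) + c0 = 2 * h * M + M + b := by omega
    rw [e1] at h2
    rw [e2] at h5
    have k1 : δ * P ^ 2 ≤ 2 * W1 + τ * (h * (h + 1)) := h2.trans h3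
    have k2 : 2 * W2 + τ * ((h + 1) * (h + 1 + 1)) ≤ δ * (2 * h * M + M + b) ^ 2 := h4.trans h5
    -- the main inequality
    have hq : 1 ≤ q := by
      by_contra hq
      have : q = 0 := by omega
      subst this
      nlinarith
    have key : δ * (M ^ 2 + 4 * (h + 1) * (a + b) * M + b ^ 2) < τ * (h + 1) := by
      have m1 : 4 * (h + 1) * (a + b) * M ≤ (M + 2) ^ 2 := by
        have : 4 * (h + 1) * (a + b) * M ≤ M * M := Nat.mul_le_mul_right _ (by omega)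
        nlinarith
      have m2 : b ^ 2 ≤ (M + 2) ^ 2 := Nat.pow_le_pow_left (by omega) 2
      have m3 : M ^ 2 ≤ (M + 2) ^ 2 := Nat.pow_le_pow_left (by omega) 2
      have m4 : q * (δ * (M ^ 2 + 4 * (h + 1) * (a + b) * M + b ^ 2)) ≤
          3 * q * δ * (M + 2) ^ 2 := by
        have : M ^ 2 + 4 * (h + 1) * (a + b) * M + b ^ 2 ≤ 3 * (M + 2) ^ 2 := by omega
        calc q * (δ * (M ^ 2 + 4 * (h + 1) * (a + b) * M + b ^ 2)) ≤
            q * (δ * (3 * (M + 2) ^ 2)) :=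
              Nat.mul_le_mul_left _ (Nat.mul_le_mul_left _ this)
          _ = _ := by ring
      have m5 : (3 * q * δ + 2) * (M + 2) ^ 2 ≤ q * (τ * (h + 1)) := by
        calc (3 * q * δ + 2) * (M + 2) ^ 2 = (M + 2) ^ 2 * (h + 1) := by rw [hh]; ring
          _ ≤ q * τ * (h + 1) := Nat.mul_le_mul_right _ h1
          _ = _ := by ring
      have m6 : 0 < (M + 2) ^ 2 := by positivity
      have m7 : q * (δ * (M ^ 2 + 4 * (h + 1) * (a + b) * M + b ^ 2)) < q * (τ * (h + 1)) := by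
        nlinarith
      exact Nat.lt_of_mul_lt_mul_left m7
    have hPz : (P : ℤ) = 2 * h * M - a := by
      have : ((P : ℤ)) + a = 2 * h * M := by exact_mod_cast hP
      linarith
    have k1z : (δ : ℤ) * (2 * h * M - a) ^ 2 ≤ 2 * W1 + τ * (h * (h + 1)) := by
      rw [← hPz]
      exact_mod_cast k1
    have k2z : 2 * (W2 : ℤ) + τ * ((h + 1) * (h + 1 + 1)) ≤ δ * (2 * h * M + M + b) ^ 2 := by
      exact_mod_cast k2
    have keyz : (δ : ℤ) * (M ^ 2 + 4 * (h + 1) * (a + b) * M + b ^ 2) < τ * (h + 1) := by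
      exact_mod_cast key
    have hhz : (1 : ℤ) ≤ h := by exact_mod_cast hh1
    have g1 : (h : ℤ) * (δ * (M ^ 2 + 4 * (h + 1) * (a + b) * M + b ^ 2)) <
        h * (τ * (h + 1)) := by
      exact mul_lt_mul_of_pos_left keyz (by linarith)
    have id1 : ((h : ℤ) + 1) * (2 * h * M - a) ^ 2 - h * (2 * h * M + M + b) ^ 2 =
        -(h * M ^ 2) - M * h * (4 * (h + 1) * a + 2 * (2 * h + 1) * b) + (h + 1) * a ^ 2 -
          h * b ^ 2 := by ring
    have id2 : -(h * (M ^ 2 + 4 * (h + 1) * (a + b) * M + b ^ 2) : ℤ) ≤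
        ((h : ℤ) + 1) * (2 * h * M - a) ^ 2 - h * (2 * h * M + M + b) ^ 2 := by
      rw [id1]
      have z1 : (0 : ℤ) ≤ (h + 1) * a ^ 2 := by positivity
      have z2 : (0 : ℤ) ≤ M * h * (2 * b) := by positivity
      linarith
    have g2 : (δ : ℤ) * -(h * (M ^ 2 + 4 * (h + 1) * (a + b) * M + b ^ 2)) ≤
        δ * (((h : ℤ) + 1) * (2 * h * M - a) ^ 2 - h * (2 * h * M + M + b) ^ 2) :=
      mul_le_mul_of_nonneg_left id2 (by positivity)
    have g3 : ((h : ℤ) + 1) * (δ * (2 * h * M - a) ^ 2) ≤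
        (h + 1) * (2 * W1 + τ * (h * (h + 1))) :=
      mul_le_mul_of_nonneg_left k1z (by positivity)
    have g4 : (h : ℤ) * (2 * W2 + τ * ((h + 1) * (h + 1 + 1))) ≤
        h * (δ * (2 * h * M + M + b) ^ 2) :=
      mul_le_mul_of_nonneg_left k2z (by positivity)
    have fin : (2 * h : ℤ) * W2 < (2 * h + 2) * W1 := by linarith
    exact_mod_cast fin

end Pool.Agent.H21.S2
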