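import Pool.Agent.H84.S2.TgE
import Pool.Agent.H20.S2.GNB
import Pool.Agent.H3.S2.QEX

/-!
# s2l board, E_NUL: forms which vanish on the components of `G = 0` not contained in `S = 0`
-/

set_option autoImplicit false

namespace Pool.Agent.H21.S2

open MvPolynomial SC
open Pool.Agent.H27.LV (ge deg poleOrder canDeg)
open Pool.Agent.H84.SM (cr dt dp)
open Pool.Agent.H84.SL (pd)
open Pool.Agent.H92.SF (Q2)
open Pool.Agent.H3.SF (Itg Bb BB Hm eu grd hes Sfc Crd Cnn Crf Prm nv Vl VQ evc FE E)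
open Pool.Agent.H84.SF
open Pool.Agent.H3.S2
open Pool.Agent.H84.S2

theorem nul_itg {k F σ : Type} [Field k] [Field F] [Algebra k F] {X : σ → F} {u : Fin 3 → F}
    (hX : ∀ s, Itg k u (X s)) (P : MvPolynomial σ k) : aeval X P ∈ Bb k u := by
  induction P using MvPolynomial.induction_on with
  | C a =>
    rw [aeval_C]
    exact (Bb k u).algebraMap_mem a
  | add p q hp hq =>
    rw [map_add]
    exact (Bb k u).add_mem hp hq
  | mul_X p i hp =>
    rw [map_mul, aeval_X]
    exact (Bb k u).mul_mem hp (hX i)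

theorem pf_NUL (hFND : T_FND) (hCRQ : Pool.Agent.H3.S2.T_CRQ) : T_NUL := by
  classical
  intro k F σ _ _ _ _ _ _ X u θ dd J δ j0 c0 c hCn hS m GP hm hN SP h hV
  obtain ⟨I, hI⟩ : ∃ I : Ideal (MvPolynomial σ k), I =
      RingHom.ker (aeval X : MvPolynomial σ k →ₐ[k] F) ⊔ Ideal.span {GP} := ⟨_, rfl⟩
  have h1 : SP * h ∈ I.radical := by
    rw [← vanishingIdeal_zeroLocus_eq_radical (K := k), mem_vanishingIdeal_iff]
    intro y hy
    have h2 : ∀ f ∈ RingHom.ker (aeval X : MvPolynomial σ k →ₐ[k] F), eval y f = 0 := by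
      intro f hf
      exact hy f (by rw [hI]; exact Ideal.mem_sup_left hf)
    have h3 : eval y GP = 0 := by
      exact hy GP (by
        rw [hI]
        exact Ideal.mem_sup_right (Ideal.subset_span rfl))
    show eval y (SP * h) = 0
    rw [map_mul]
    by_cases h4 : eval y SP = 0
    · rw [h4, zero_mul]
    · rw [hV y h2 h3 h4, mul_zero]
  obtain ⟨n, hn⟩ := h1
  rw [hI, Submodule.mem_sup] at hn
  obtain ⟨a, ha, b', hb', hab⟩ := hn
  obtain ⟨b, rfl⟩ := Ideal.mem_span_singleton.1 hb'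
  have h5 : aeval X (SP * h) ^ n = aeval X GP * aeval X b := by
    rw [← map_pow, ← hab, map_add, map_mul, RingHom.mem_ker.1 ha, zero_add]
  have hG0 : aeval X GP ≠ 0 := hN.ne
  have hY := Pool.Agent.H20.S2.gnb_syd hS
  obtain ⟨T0, hT0⟩ := hFND k F σ X u dd J j0 hY m GP hN.hom
  obtain ⟨Q, hQh, hQ0, hQT⟩ := qex X u hY.ind hY.ulin T0 T0.card (by nlinarith)
  have hNdq : Ndq X GP Q := by
    intro s hs hf hg
    rcases hN.ndl s hs hf hg with h6 | h6
    · exact Or.inl h6
    · right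
      refine ⟨h6, ?_⟩
      obtain ⟨t, ht, μ, -, rfl⟩ := hT0 s hs ⟨fun f d hf => hCn.hmg f hf d, hf⟩ hg h6
      exact hQT t ht μ
  obtain ⟨S, b1, hCrs, -, -⟩ := hCRQ k F σ X hCn u θ dd δ j0 c0 J hS.sfc hS.prj m GP
    (2 * T0.card) Q hm hN.hom hG0 hQh hQ0 hNdq
  have hX := nul_itg hS.prj.Xint
  have h7 : ∀ j, Itg k u (aeval X (SP * h) ^ (2 ^ j) / aeval X GP) →
      Itg k u (aeval X (SP * h) / aeval X GP) := by
    intro j
    induction j with
    | zero =>
      intro h8
      simpa using h8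
    | succ j ih =>
      intro h8
      apply ih
      refine hCrs.red _ ((Bb k u).pow_mem (hX _) _) ?_
      rw [← pow_two, ← pow_mul, ← pow_succ]
      exact h8
  rw [← map_mul]
  apply h7 n
  have h9 : n ≤ 2 ^ n := Nat.lt_two_pow_self.le
  obtain ⟨r, hr⟩ := Nat.exists_eq_add_of_le h9
  rw [hr, pow_add, h5]
  have h10 : aeval X GP * aeval X b * aeval X (SP * h) ^ r / aeval X GP =
      aeval X b * aeval X (SP * h) ^ r := by
    field_simp
  rw [h10]
  exact (Bb k u).mul_mem (hX _) ((Bb k u).pow_mem (hX _) _)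

end Pool.Agent.H21.S2
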